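import Pool.Agent.W566.MZ.Stmts

/-!
# MP_aa8fd2_nt, part K5: infinite places and complex conjugations
-/

set_option autoImplicit false

open NumberField MZ

namespace Pool.Agent.W266.MZK5

/-- 2-units are preserved by ring homomorphisms. -/
lemma twoUnit_map {Ω : Type} [Field Ω] (f : Ω →+* Ω) {x : Ω} (h : TwoUnit x) : TwoUnit (f x) := by
  obtain ⟨h0, n, h1, h2⟩ := h
  refine ⟨by simpa using h0, n, ?_, ?_⟩
  · have h3 : IsIntegral ℤ (f (2 ^ n * x)) := h1.map f.toIntAlgHom
    rwa [map_mul, map_pow, map_ofNat] at h3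
  · have h3 : IsIntegral ℤ (f (2 ^ n * x⁻¹)) := h2.map f.toIntAlgHom
    rwa [map_mul, map_pow, map_ofNat, map_inv₀] at h3

/-- `L_∞` is stable under the `L`-endomorphisms of `Ω`. -/
lemma linf_map_le (L Ω : Type) [Field L] [Field Ω] [Algebra L Ω] (σ : Ω →ₐ[L] Ω) :
    (Linf L Ω).map σ ≤ Linf L Ω := by
  rw [IntermediateField.map_le_iff_le_comap]
  unfold Linf
  intro x hx
  change σ x ∈ sInf {M : IntermediateField L Ω | KumClosed M}
  rw [IntermediateField.mem_sInf] at hx ⊢
  intro M hM
  have h1 : KumClosed (M.comap σ) := by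
    intro a b ha hu hb
    change σ a ∈ M at ha
    change σ b ∈ M
    exact hM (σ a) (σ b) ha (twoUnit_map (σ : Ω →+* Ω) hu) (by rw [← map_pow, hb])
  exact hx _ h1

/-- `L_∞ / L` is Galois. -/
lemma linf_isGalois (L Ω : Type) [Field L] [NumberField L] [Field Ω] [Algebra L Ω]
    [IsAlgClosure L Ω] : IsGalois L (Linf L Ω) := by
  have : Algebra.IsAlgebraic L Ω := IsAlgClosure.isAlgebraic
  have : IsAlgClosed Ω := IsAlgClosure.isAlgClosed L
  have hn : Normal L Ω := IsAlgClosure.normal L Ω
  have h2 : Normal L (Linf L Ω) :=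
    IntermediateField.normal_iff_forall_map_le.mpr (linf_map_le L Ω)
  have h3 : Algebra.IsSeparable L (Linf L Ω) := inferInstance
  exact ⟨⟩

theorem t_K5 : MZ.StmK5 := by
  intro L Ω _ _ _ _ _ hreal φ c hφ hc N hN hopen
  have hG : IsGalois L (Linf L Ω) := linf_isGalois L Ω
  have hclosed : IsClosed (N : Set Gal((Linf L Ω)/L)) := Subgroup.isClosed_of_isOpen N hopen
  let H : ClosedSubgroup Gal((Linf L Ω)/L) := ⟨N, hclosed⟩
  have hHN : H.Normal := hN
  set M : IntermediateField L (Linf L Ω) := IntermediateField.fixedField N with hM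
  have hfix : M.fixingSubgroup = N := InfiniteGalois.fixingSubgroup_fixedField H
  have hfd : FiniteDimensional L M := by
    rw [← InfiniteGalois.isOpen_iff_finite]
    change IsOpen (M.fixingSubgroup : Set Gal((Linf L Ω)/L))
    rw [hfix]
    exact hopen
  have hMG : IsGalois L M := by
    rw [← InfiniteGalois.normal_iff_isGalois, hfix]
    exact hN
  have hNF : NumberField M := NumberField.of_module_finite L M
  have hcard : Nat.card (Gal((Linf L Ω)/L) ⧸ N) = Module.finrank L M := by
    rw [← IsGalois.card_aut_eq_finrank L M]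
    exact Nat.card_congr (InfiniteGalois.normalAutEquivQuotient H).toEquiv
  classical
  -- unramified places
  have key : ∀ τ : L →+* ℂ, (InfinitePlace.mk τ).IsUnramifiedIn M ↔ c τ ∈ N := by
    intro τ
    set ψ : M →+* ℂ := (φ τ).comp (algebraMap M (Linf L Ω)) with hψ
    have hψτ : ψ.comp (algebraMap L M) = τ := by
      rw [hψ, RingHom.comp_assoc, ← IsScalarTower.algebraMap_eq, hφ]
    have h1 : (InfinitePlace.mk ψ).comap (algebraMap L M) = InfinitePlace.mk τ := by
      rw [InfinitePlace.comap_mk, hψτ]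
    rw [← h1, InfinitePlace.isUnramifiedIn_comap, InfinitePlace.isUnramified_mk_iff_isUnmixed,
      ← hfix, IntermediateField.mem_fixingSubgroup_iff]
    have h2 : ComplexEmbedding.IsReal (ψ.comp (algebraMap L M)) := by
      rw [hψτ]; exact hreal τ
    have h3 : ComplexEmbedding.IsUnmixed L ψ ↔ ComplexEmbedding.IsReal ψ :=
      ⟨fun h => h h2, fun h _ => h⟩
    rw [h3, ComplexEmbedding.isReal_iff]
    constructor
    · intro h x hx
      have h4 : ComplexEmbedding.conjugate ψ ⟨x, hx⟩ = ψ ⟨x, hx⟩ := by rw [h]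
      have h5 : (starRingEnd ℂ) (φ τ x) = φ τ x := h4
      have h6 : (starRingEnd ℂ) (φ τ x) = φ τ (c τ x) := by
        have := RingHom.congr_fun (hc τ) x
        exact this
      rw [h6] at h5
      exact (φ τ).injective h5
    · intro h
      ext x
      have h6 : (starRingEnd ℂ) (φ τ x) = φ τ (c τ x) := RingHom.congr_fun (hc τ) x
      change (starRingEnd ℂ) (φ τ x) = φ τ x
      rw [h6, h x x.2]
  have hbij : Function.Bijective (fun τ : L →+* ℂ => InfinitePlace.mk τ) := by
    constructor
    · intro τ τ' h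
      rcases InfinitePlace.mk_eq_iff.mp h with h1 | h1
      · exact h1
      · rw [ComplexEmbedding.isReal_iff.mp (hreal τ)] at h1
        exact h1
    · intro w
      exact ⟨w.embedding, InfinitePlace.mk_embedding w⟩
  have horb : ∀ τ : L →+* ℂ, orb N (c τ) =
      if (InfinitePlace.mk τ).IsUnramifiedIn M then Module.finrank L M
        else Module.finrank L M / 2 := by
    intro τ
    unfold orb
    rw [hcard]
    by_cases h : c τ ∈ N
    · rw [if_pos h, if_pos ((key τ).mpr h)]
    · rw [if_neg h, if_neg (fun h' => h ((key τ).mp h'))]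
  rw [Nat.card_eq_fintype_card, InfinitePlace.card_eq_card_isUnramifiedIn L M]
  simp_rw [horb]
  rw [hbij.sum_comp (fun v : InfinitePlace L => if v.IsUnramifiedIn M then Module.finrank L M
        else Module.finrank L M / 2), Finset.sum_ite, Finset.sum_const, Finset.sum_const,
    smul_eq_mul, smul_eq_mul]
  congr 2
  rw [Finset.compl_filter]

end Pool.Agent.W266.MZK5
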